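import Pool.Agent.Run7.h260.LP.Mul
import Pool.Agent.N162.GQ.Factor
import Pool.Agent.N145.SX.Prods
import Pool.Agent.N442.SX.SEC2
import Pool.Agent.N123.SX.PULL
import Pool.Agent.N78.GQ.Gon

/-!
# Pluricanonical forms on products
-/

set_option autoImplicit false
set_option linter.unusedSectionVars false
set_option linter.overlappingInstances false

open FF IntermediateField Module
open Pool.Agent.W602.GT Pool.Agent.W603.LV Pool.Agent.Y172
open Pool.Agent.N145.SX (HX SepX zS BdS)
open Pool.Agent.Y184.NT (trForm)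
open Pool.Agent.N162.GQ (Factor)

namespace Pool.Agent.Run7.h260.LP

theorem sepB_of_sepX {E : Type} [Field E] [Algebra ℂ E] {m : ℕ} {x : Fin m → E}
    {B : Place ℂ E → Prop} {g : ℕ} (h : SepX x B g) : SepB (fun v : HX x B => (v : E)) g := by
  intro Ω _ _ _ S lam hS hlam hcard hrel
  obtain ⟨ρ₀, hρ₀⟩ := hS
  exact hlam ρ₀ hρ₀ (h Ω S hcard lam (fun f hf => hrel ⟨f, hf⟩) ρ₀ hρ₀)

/-- products of `l` logarithmic canonical forms -/
theorem logSec_prod {E : Type} [Field E] [Algebra ℂ E] {n l : ℕ} {z : Fin n → E}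
    {B : Place ℂ E → Prop} (f : Fin l → HX z B) :
    LogSec ℂ E n l B (fun D => (∏ t, (f t : E)) * plForm l z 1 D) := by
  have hval : ∀ D : Fin n → Derivation ℂ E E, (∏ t, (f t : E)) * plForm l z 1 D =
      ∏ t, trForm z (f t : E) D := by
    intro D
    unfold plForm trForm
    rw [Finset.prod_mul_distrib, Finset.prod_const, Finset.card_univ, Fintype.card_fin]
    ring
  have hprod : ∀ (P : Place ℂ E) (D : Fin n → Derivation ℂ E E),
      (∀ t, P.Reg (trForm z (f t : E) D)) → P.Reg (∏ t, trForm z (f t : E) D) := by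
    intro P D h
    refine Finset.prod_induction _ P.Reg (fun a b ha hb => P.reg_mul ha hb) ?_ fun t _ => h t
    have h2 : Ge P 0 (((1 : ℤ) : E)) := Ge.intCast _
    rw [Int.cast_one] at h2
    exact h2
  refine ⟨?_, fun P hP D hD => ?_, fun P hP hB D hD => ?_⟩
  · intro A D
    have h1 := plForm_pluri l z (1 : E) A D
    change _ * plForm l z 1 _ = _
    rw [h1]
    ring
  · change P.Reg ((∏ t, (f t : E)) * plForm l z 1 D)
    rw [hval]
    exact hprod P D fun t => ((f t).2 P hP).1 D hD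
  · change P.Reg ((∏ t, (f t : E)) * plForm l z 1 D)
    rw [hval]
    exact hprod P D fun t => ((f t).2 P hP).2 hB D hD

/-- embeddings of a compositum -/
theorem ext_iSup {K : Type} [Field K] [Algebra ℂ K] {t : ℕ} {F : Fin t → IntermediateField ℂ K}
    {T : IntermediateField ℂ K} (hT : T = ⨆ i, F i) (hle : ∀ i, F i ≤ T) {Ω : Type} [Field Ω]
    [Algebra ℂ Ω] {ρ ρ' : T →ₐ[ℂ] Ω}
    (h : ∀ i (v : F i), ρ (IntermediateField.inclusion (hle i) v) =
      ρ' (IntermediateField.inclusion (hle i) v)) : ρ = ρ' := by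
  let E' : IntermediateField ℂ T :=
    { AlgHom.equalizer ρ ρ' with
      inv_mem' := fun v hv => by
        change ρ v = ρ' v at hv
        change ρ v⁻¹ = ρ' v⁻¹
        rw [map_inv₀, map_inv₀, hv] }
  have hE' : ∀ v : T, v ∈ E' ↔ ρ v = ρ' v := fun _ => Iff.rfl
  have h1 : T ≤ E'.map T.val := by
    conv_lhs => rw [hT]
    refine iSup_le fun i v hv => ?_
    exact ⟨⟨v, hle i hv⟩, (hE' _).2 (h i ⟨v, hv⟩), rfl⟩
  ext v
  obtain ⟨w, hw, hwv⟩ := h1 v.2
  have h2 : w = v := Subtype.ext hwv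
  rw [← h2]
  exact (hE' w).1 hw

section

variable {K : Type} [Field K] [Algebra ℂ K] {t : ℕ} {m : Fin t → ℕ} {g : ℕ}
  {F : Fin t → IntermediateField ℂ K}

/-- the coordinates are independent -/
theorem ind_coords (hK : Algebra.trdeg ℂ K = (∑ i, m i : ℕ))
    (hfin : Algebra.IsAlgebraic (⨆ i, F i : IntermediateField ℂ K) K)
    {x : ∀ i : Fin t, Fin (m i) → F i} (hx : ∀ i, IsTranscendenceBasis ℂ (x i)) :
    AlgebraicIndependent ℂ fun p : (i : Fin t) × Fin (m i) => (x p.1 p.2 : K) := by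
  obtain ⟨e⟩ : Nonempty (Fin (∑ i, m i) ≃ (i : Fin t) × Fin (m i)) := ⟨finSigmaFinEquiv.symm⟩
  obtain ⟨w, hw⟩ : ∃ w : Fin (∑ i, m i) → K, ∀ l, w l = x (e l).1 (e l).2 := ⟨_, fun _ => rfl⟩
  obtain ⟨S, hS⟩ : ∃ S, S = IntermediateField.adjoin ℂ (Set.range w) := ⟨_, rfl⟩
  have hwS : ∀ l, w l ∈ S := fun l => by
    rw [hS]
    exact IntermediateField.subset_adjoin _ _ ⟨l, rfl⟩
  have h3 : ∀ i, ∀ v ∈ F i, IsAlgebraic S v := by
    intro i v hv
    refine Pool.Agent.N145.SX.alg_of_basis (hx i) (fun j => ?_) hv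
    have h1 := hwS (e.symm ⟨i, j⟩)
    rw [hw, Equiv.apply_symm_apply] at h1
    exact h1
  have h4 := Pool.Agent.N145.SX.le_algCl h3 (T := ⨆ i, F i) rfl
  have h5 : Algebra.IsAlgebraic (Algebra.adjoin ℂ (Set.range w)) K := by
    refine Pool.Agent.W619.PQ.alg_adjoin fun z => ?_
    have h6 : IsAlgebraic (⨆ i, F i : IntermediateField ℂ K) z := hfin.isAlgebraic z
    have h7 : IsAlgebraic ((algebraicClosure S K).restrictScalars ℂ) z :=
      h6.ringHom_of_comp_eq (IntermediateField.inclusion h4).toRingHom (RingHom.id K)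
        (IntermediateField.inclusion h4).injective rfl
    have h7' : IsIntegral (algebraicClosure S K) z := by
      have h9 : IsAlgebraic (algebraicClosure S K) z := h7
      exact h9.isIntegral
    have h8 : IsAlgebraic S z := by
      have h9 : Algebra.IsAlgebraic S (algebraicClosure S K) := inferInstance
      have h10 : z ∈ algebraicClosure S K := by
        have h11 : z ∈ algebraicClosure (algebraicClosure S K) K := by
          rw [mem_algebraicClosure_iff]
          exact h7'.isAlgebraic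
        rw [algebraicClosure.algebraicClosure_eq_bot] at h11
        obtain ⟨w, hw⟩ := IntermediateField.mem_bot.1 h11
        rw [← hw]
        exact w.2
      exact mem_algebraicClosure_iff.1 h10
    rw [hS] at h8
    exact h8
  have h6 : IsTranscendenceBasis ℂ w := by
    refine Algebra.IsAlgebraic.isTranscendenceBasis_of_lift_le_trdeg_of_finite ℂ _ ?_
    rw [hK]
    simp
  have h7 := h6.1.comp (fun p : (i : Fin t) × Fin (m i) => e.symm p) e.symm.injective
  have h8 : (w ∘ fun p : (i : Fin t) × Fin (m i) => e.symm p) =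
      fun p => (x p.1 p.2 : K) := by
    funext p
    rw [Function.comp_apply, hw, Equiv.apply_symm_apply]
  rwa [h8] at h7

end

theorem SepB.mono {K : Type} [Field K] [Algebra ℂ K] {ι : Type} {b : ι → K} {g g' : ℕ}
    (h : SepB b g) (hg : g' ≤ g) : SepB b g' :=
  fun Ω _ _ _ S lam hS hlam hcard hrel => h Ω S lam hS hlam (lt_of_lt_of_le hcard hg) hrel

/-- splitting of exponents -/
theorem split_deg {σ : Type} (a b : ℕ) : ∀ α : σ →₀ ℕ, α.degree = a + b →
    ∃ β γ : σ →₀ ℕ, α = β + γ ∧ β.degree = a ∧ γ.degree = b := by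
  classical
  induction b with
  | zero => exact fun α hα => ⟨α, 0, by simp, by simpa using hα, by simp⟩
  | succ b ih =>
    intro α hα
    have h0 : α ≠ 0 := by
      rintro rfl
      simp at hα
    obtain ⟨j, hj⟩ := Finsupp.ne_iff.1 h0
    have hj' : 1 ≤ α j := Nat.one_le_iff_ne_zero.2 hj
    have h1 : α = (α - Finsupp.single j 1) + Finsupp.single j 1 := by
      rw [tsub_add_cancel_of_le]
      intro i
      by_cases hi : i = j
      · rw [hi, Finsupp.single_eq_same]
        exact hj'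
      · rw [Finsupp.single_eq_of_ne hi]
        exact Nat.zero_le _
    have h2 : (α - Finsupp.single j 1).degree = a + b := by
      have h3 := congrArg Finsupp.degree h1
      rw [map_add, Finsupp.degree_single] at h3
      omega
    obtain ⟨β, γ, h3, h4, h5⟩ := ih _ h2
    refine ⟨β, γ + Finsupp.single j 1, ?_, h4, ?_⟩
    · rw [← add_assoc, ← h3]
      exact h1
    · rw [map_add, Finsupp.degree_single, h5]

/-- the monomials of degree `l m` are products of `l` monomials of degree `m` -/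
theorem mono_prod {M : ℕ} {E : Type} [Field E] [Algebra ℂ E] {x : Fin (M + 2) → E} {a : E}
    {H : Set E} {m : ℕ}
    (hH : ∀ P : MvPolynomial (Fin (M + 2)) ℂ, P.IsHomogeneous m → MvPolynomial.aeval x P * a ∈ H) :
    ∀ (l : ℕ) (α : Fin (M + 2) →₀ ℕ), α.degree = l * m →
      ∃ f : Fin l → H, MvPolynomial.aeval x (MvPolynomial.monomial α (1 : ℂ)) * a ^ l =
        ∏ s, (f s : E) := by
  intro l
  induction l with
  | zero =>
    intro α hα
    have h0 : α = 0 := by
      rw [zero_mul] at hα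
      exact (Finsupp.degree_eq_zero_iff α).1 hα
    refine ⟨fun s => s.elim0, ?_⟩
    rw [h0]
    simp
  | succ l ih =>
    intro α hα
    obtain ⟨β, γ, h1, h2, h3⟩ := split_deg (l * m) m α (by rw [hα]; ring)
    obtain ⟨f, hf⟩ := ih β h2
    refine ⟨Fin.snoc (α := fun _ => H) f ⟨_, hH (MvPolynomial.monomial γ 1)
      (MvPolynomial.isHomogeneous_monomial 1 h3)⟩, ?_⟩
    simp only [Fin.prod_univ_castSucc, Fin.snoc_castSucc, Fin.snoc_last]
    rw [← hf, h1]
    have h4 : (MvPolynomial.monomial (β + γ) (1 : ℂ)) =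
        MvPolynomial.monomial β 1 * MvPolynomial.monomial γ 1 := by
      rw [MvPolynomial.monomial_mul, one_mul]
    rw [h4, map_mul, pow_succ]
    ring

/-- **Varieties of low degree.** -/
theorem low_sep {M n m N D l : ℕ} {E : Type} [Field E] [Algebra ℂ E] {x : Fin (M + 2) → E}
    (h : Pool.Agent.N162.GP.LowDegree n m D x) (h1 : 1 ≤ M) (h2 : 7 * N + 4 ≤ l * m)
    (h3 : (M + 1) * N < l * m + M + 2) (h4 : D + N ≤ l * m + 2) (h5 : N ≤ m + 1) {z : Fin n → E}
    (hz : IsTranscendenceBasis ℂ z) :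
    SepB (fun f : Fin l → HX z (fun _ => False) => ∏ s, (f s : E))
      ((N + 1) * (l * m + 2 - N)) := by
  classical
  obtain ⟨ω₀, hadj⟩ := h.forms
  choose e he using fun i : Fin n => exists_der _ hz fun j => if i = j then 1 else 0
  obtain ⟨a, ha⟩ : ∃ a, a = ω₀ e := ⟨_, rfl⟩
  have ha0 : a ≠ 0 := by
    intro h0
    obtain ⟨D', hD'⟩ := hadj.ne
    apply hD'
    rw [pluri_coord hz he hadj.pl D', ← ha, h0, mul_zero]
  have hH : ∀ P : MvPolynomial (Fin (M + 2)) ℂ, P.IsHomogeneous m →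
      MvPolynomial.aeval x P * a ∈ HX z (fun _ => False) := by
    intro P hP Q hQ
    have hval : ∀ G : Fin n → Derivation ℂ E E,
        trForm z (MvPolynomial.aeval x P * a) G = MvPolynomial.aeval x P * ω₀ G := by
      intro G
      rw [pluri_coord hz he hadj.pl G, ← ha]
      unfold trForm
      ring
    have h6 : RegAt Q (trForm z (MvPolynomial.aeval x P * a)) := by
      intro G hG
      rw [hval]
      exact (hadj.reg P hP).2 Q hQ G hG
    exact ⟨fun G hG => h6 G fun i => Pool.Agent.TH466.QG.derReg_of_log (hG i), fun _ => h6⟩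
  intro Ω _ _ _ S lam hS hlam hcard hrel
  refine Pool.Agent.Run7.h260.LQ.linx M n (l * m) m N D E Ω x ω₀ h1 h2 h3 h4 h5 h.one h.gen h.dim
    h.cut hadj S (fun ρ => lam ρ * ρ a ^ l) hS (fun ρ hρ => mul_ne_zero (hlam ρ hρ)
      (pow_ne_zero _ ((map_ne_zero_iff ρ ρ.toRingHom.injective).2 ha0))) hcard fun P hP => ?_
  have hmono : ∀ α : Fin (M + 2) →₀ ℕ, α.degree = l * m → ∑ ρ ∈ S, lam ρ * ρ a ^ l *
      ρ (MvPolynomial.aeval x (MvPolynomial.monomial α (1 : ℂ))) = 0 := by
    intro α hα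
    obtain ⟨f, hf⟩ := mono_prod hH l α hα
    refine Eq.trans (Finset.sum_congr rfl fun ρ _ => ?_) (hrel f)
    change _ = lam ρ * ρ (∏ s, (f s : E))
    rw [← hf, map_mul, map_pow]
    ring
  have hP' : MvPolynomial.aeval x P = ∑ α ∈ P.support, algebraMap ℂ E (P.coeff α) *
      MvPolynomial.aeval x (MvPolynomial.monomial α (1 : ℂ)) := by
    conv_lhs => rw [P.as_sum]
    rw [map_sum]
    refine Finset.sum_congr rfl fun α _ => ?_
    rw [MvPolynomial.aeval_monomial, MvPolynomial.aeval_monomial, map_one, one_mul]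
  have h6 : ∑ ρ ∈ S, lam ρ * ρ a ^ l * ρ (MvPolynomial.aeval x P) =
      ∑ α ∈ P.support, algebraMap ℂ Ω (P.coeff α) * ∑ ρ ∈ S, lam ρ * ρ a ^ l *
        ρ (MvPolynomial.aeval x (MvPolynomial.monomial α (1 : ℂ))) := by
    rw [hP']
    simp_rw [Finset.mul_sum]
    rw [Finset.sum_comm]
    refine Finset.sum_congr rfl fun ρ _ => ?_
    rw [map_sum, Finset.mul_sum]
    refine Finset.sum_congr rfl fun α _ => ?_
    rw [map_mul, AlgHom.commutes]
    ring
  rw [h6]
  refine Finset.sum_eq_zero fun α hα => ?_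
  rw [hmono α, mul_zero]
  have h7 := hP (MvPolynomial.mem_support_iff.1 hα)
  rw [← h7, Finsupp.degree_eq_weight_one]
  rfl

/-- The variety with the function field `E`, of dimension `n`, whose `l`-canonical forms separate
less than `g` generic points, is of one of the following types: a variety in projective
`(M + 1)`-space which is cut out by equations of degree at most `D` and has the canonical forms
`P(x) ω₀` for all forms `P` of degree `m` (`LowDegree`, for instance a smooth complete intersection),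
where `l m ≥ 7 N + 4`, `(M + 1) N < l m + M + 2`, `D + N ≤ l m + 2`, `N ≤ m + 1` and
`g ≤ (N + 1) (l m + 2 - N)`; or a variety whose canonical forms separate less than `h ≥ 2` generic
points (`Factor`, for instance a curve of gonality at least `h`), where `g ≤ l (h - 2) + 2`. -/
def PluriFactor (E : Type) [Field E] [Algebra ℂ E] (n l g : ℕ) : Prop :=
  (∃ (M m D N : ℕ) (x : Fin (M + 2) → E), Pool.Agent.N162.GP.LowDegree n m D x ∧ 1 ≤ M ∧
    7 * N + 4 ≤ l * m ∧ (M + 1) * N < l * m + M + 2 ∧ D + N ≤ l * m + 2 ∧ N ≤ m + 1 ∧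
    g ≤ (N + 1) * (l * m + 2 - N)) ∨
  ∃ h, 2 ≤ h ∧ Factor E n h ∧ g ≤ l * (h - 2) + 2

theorem ess_pluriFactor {E : Type} [Field E] [Algebra ℂ E] {n l g : ℕ}
    (h : PluriFactor E n l g) : Algebra.EssFiniteType ℂ E := by
  rcases h with ⟨M, m, D, N, x, h, -⟩ | ⟨h', -, h, -⟩
  · exact Pool.Agent.N162.GP.ess_of_gen h.gen
  · exact Pool.Agent.N162.GQ.ess_factor h

theorem dim_pluriFactor {E : Type} [Field E] [Algebra ℂ E] {n l g : ℕ}
    (h : PluriFactor E n l g) : Algebra.trdeg ℂ E = n := by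
  rcases h with ⟨M, m, D, N, x, h, -⟩ | ⟨h', -, h, -⟩
  · exact h.dim
  · exact Pool.Agent.N162.GQ.dim_factor h

theorem sep_pluriFactor {E : Type} [Field E] [Algebra ℂ E] {n l g : ℕ}
    (h : PluriFactor E n l g) {z : Fin n → E} (hz : IsTranscendenceBasis ℂ z) :
    SepB (fun f : Fin l → HX z (fun _ => False) => ∏ s, (f s : E)) g := by
  rcases h with ⟨M, m, D, N, x, h, h1, h2, h3, h4, h5, h6⟩ | ⟨h', h1, h, h2⟩
  · exact (low_sep h h1 h2 h3 h4 h5 hz).mono h6
  · exact (pow_mul' (sepB_of_sepX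
      (Pool.Agent.N162.GQ.sep_factor Pool.Agent.N78.GQ.gon_ h _ z hz)) h1 l).mono h2

section

variable {K : Type} [Field K] [Algebra ℂ K] {n t g l k : ℕ} {m : Fin t → ℕ}
  {F : Fin t → IntermediateField ℂ K}

/-- **Klt pairs dominated by products.** -/
theorem prod_frac (hn : 1 ≤ n) (hl : 1 ≤ l) (hF : ∀ i, PluriFactor (F i) (m i) l g)
    (hm : ∑ i, m i = n) (hK : Algebra.trdeg ℂ K = n)
    [FiniteDimensional (⨆ i, F i : IntermediateField ℂ K) K]
    {L : Type} [Field L] [Algebra ℂ L] [Algebra L K] [IsScalarTower ℂ L K] [FiniteDimensional L K]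
    {N₀ : ℕ} {y : Fin (N₀ + 1) → L} (hy : NormalModel y) {Δ : Place ℂ L → ℚ} (hΔ : Effective y Δ)
    (hram : ∀ P, IsPrimeDivisor y P → ∀ (Q : Place ℂ K) (e : ℕ), Over Q P e →
      1 - 1 / ((min e l : ℕ) : ℚ) ≤ Δ P) :
    (k * Module.finrank L K < g →
      ∃ η : Fin k → ((Fin n → Derivation ℂ L L) → L),
        LinearIndependent ℂ η ∧ ∀ j, IsSection y n l (l • Δ) (η j)) ∧
    (2 * Module.finrank L K < g → kodairaDim y n Δ = (n : WithBot ℕ) ∧
      ∀ A, Effective y A → Integral y A → numericalDim y n Δ A = (n : EReal)) := by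
  classical
  have hFe : ∀ i, Algebra.EssFiniteType ℂ (F i) := fun i => ess_pluriFactor (hF i)
  have hd : ∀ i, Algebra.trdeg ℂ (F i) = m i := fun i => dim_pluriFactor (hF i)
  choose x D hx hD using fun i => Pool.Agent.Y172.exists_crd (hd i)
  have hind := ind_coords (F := F) (m := m) (by rw [hm]; exact hK) inferInstance hx
  obtain ⟨T, hT⟩ : ∃ T : IntermediateField ℂ K, T = ⨆ i, F i := ⟨_, rfl⟩
  have hle : ∀ i, F i ≤ T := fun i => by
    rw [hT]
    exact le_iSup F i
  have hfin : FiniteDimensional T K := by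
    rw [hT]
    infer_instance
  obtain ⟨e⟩ : Nonempty (Fin n ≃ (i : Fin t) × Fin (m i)) := by
    rw [← hm]
    exact ⟨finSigmaFinEquiv.symm⟩
  have hess : Algebra.EssFiniteType ℂ T := Pool.Agent.N145.SX.ess_iSup hT
  have hz := Pool.Agent.N145.SX.basis_zS x hle e hx hind hT
  have hTn : Algebra.trdeg ℂ T = n := Pool.Agent.N145.SX.trdeg_basis hz
  obtain ⟨V, hV⟩ : ∃ V : Set T, V = {q : T | ∃ f : ∀ i, F i,
    (∀ i, f i ∈ HX (x i) (fun _ => False)) ∧ (q : K) = ∏ i, (f i : K)} := ⟨_, rfl⟩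
  have hVH : ∀ q ∈ V, q ∈ HX (zS x hle e) (BdS hle fun _ _ => False) := by
    intro q hq
    rw [hV] at hq
    obtain ⟨f, hf, hqf⟩ := hq
    obtain ⟨p, hp1, hp2⟩ := Pool.Agent.N145.SX.prods
      (Pool.Agent.N442.SX.SEC2 Pool.Agent.N123.SX.PULL) t F m hd x hx hind
      (fun _ _ => False) T hT hle n e f hf
    have h1 : q = p := Subtype.ext (hqf.trans hp1.symm)
    rw [h1]
    exact hp2
  have hsep : SepB (fun f : Fin l → V => ∏ s, (f s : T)) g := by
    intro Ω _ _ _ S lam hS hlam hcard hrel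
    obtain ⟨W, hW⟩ : ∃ W : ∀ i, Set (F i), ∀ i, W i =
        Set.range fun f : Fin l → HX (x i) (fun _ => False) => ∏ s, (f s : F i) :=
      ⟨_, fun _ => rfl⟩
    have hWs : ∀ i, SepB (fun v : W i => (v : F i)) g := by
      intro i Ω' _ _ _ S' lam' hS' hlam' hcard' hrel'
      refine sep_pluriFactor (hF i) (hx i) Ω' S' lam' hS' hlam' hcard' fun f => ?_
      exact hrel' ⟨_, by rw [hW]; exact ⟨f, rfl⟩⟩
    refine prod_sep t (fun i => F i) (fun i => IntermediateField.inclusion (hle i))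
      W hWs Ω S lam hS hlam hcard (fun ρ _ ρ' _ h => ext_iSup hT hle h) fun f => ?_
    have hf : ∀ i, ∃ f' : Fin l → HX (x i) (fun _ => False),
        (f i : F i) = ∏ s, (f' s : F i) := by
      intro i
      obtain ⟨f', hf'⟩ := (Set.ext_iff.1 (hW i) _).1 (f i).2
      exact ⟨f', hf'.symm⟩
    choose f' hf' using hf
    have h1 : ∀ s, (∏ i, IntermediateField.inclusion (hle i) (f' i s : F i) : T) ∈ V := by
      intro s
      rw [hV]
      refine ⟨fun i => (f' i s : F i), fun i => (f' i s).2, ?_⟩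
      rw [← IntermediateField.algebraMap_apply, map_prod]
      rfl
    have h2 := hrel fun s => ⟨_, h1 s⟩
    have h3 : (∏ i, IntermediateField.inclusion (hle i) (f i : F i) : T) =
        ∏ s, ∏ i, IntermediateField.inclusion (hle i) (f' i s : F i) := by
      rw [Finset.prod_comm]
      refine Finset.prod_congr rfl fun i _ => ?_
      rw [hf', map_prod]
    rw [h3]
    exact h2
  obtain ⟨E0, hE0⟩ : ∃ E0 : Fin n → Derivation ℂ T T, ∀ i j,
      E0 i (zS x hle e j) = if i = j then 1 else 0 := by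
    choose E0 hE0 using fun i : Fin n => exists_der _ hz fun j => if i = j then 1 else 0
    exact ⟨E0, hE0⟩
  refine frac_main (E := T) (BE := BdS hle fun _ _ => False) hn hTn hl hy hΔ
    ⟨hram, fun _ _ _ _ _ _ _ _ h => ?_⟩ (b := fun f : Fin l → V => ∏ s, (f s : T))
    (ω₀ := plForm l (zS x hle e) 1) (plForm_pluri _ _ _) ⟨E0, ?_⟩ (fun f => ?_) hsep
  · obtain ⟨_, _, _, h', -⟩ := h
    exact h'.elim
  · unfold plForm
    have h2 : (Matrix.of fun i j => E0 i (zS x hle e j) : Matrix (Fin n) (Fin n) T) = 1 := by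
      ext i j
      rw [Matrix.of_apply, hE0, Matrix.one_apply]
    rw [h2, Matrix.det_one, one_pow, one_mul]
    exact one_ne_zero
  · exact logSec_prod (fun s => (⟨(f s : T), hVH _ (f s).2⟩ :
      HX (zS x hle e) (BdS hle fun _ _ => False)))

end

end Pool.Agent.Run7.h260.LP
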