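import Pool.Agent.Run7.h260.LQ.Ind
import Pool.Agent.N162.GP.Final3
import Pool.Agent.N162.GP.Facts2

/-!
# Traces of functions which separate generic points
-/

set_option autoImplicit false
set_option linter.unusedSectionVars false
set_option linter.overlappingInstances false

open FF IntermediateField
open Pool.Agent.N162.GP

namespace Pool.Agent.Run7.h260.LP

/-- The functions `b i` separate less than `g` generic points: for nonzero coefficients there is no
relation between their values at less than `g` different generic points. -/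
def SepB {K : Type} [Field K] [Algebra ℂ K] {ι : Type} (b : ι → K) (g : ℕ) : Prop :=
  ∀ (Ω : Type) [Field Ω] [Algebra ℂ Ω] [IsAlgClosed Ω] (S : Finset (K →ₐ[ℂ] Ω))
    (lam : (K →ₐ[ℂ] Ω) → Ω), S.Nonempty → (∀ ρ ∈ S, lam ρ ≠ 0) → S.card < g →
    (∀ i, ∑ ρ ∈ S, lam ρ * ρ (b i) = 0) → False

section

variable {n g : ℕ} {K L K' : Type} [Field K] [Algebra ℂ K] [Field L] [Algebra ℂ L] [Field K']
  [Algebra ℂ K'] [Algebra K K'] [IsScalarTower ℂ K K'] [Algebra L K']
  [IsScalarTower ℂ L K'] [FiniteDimensional L K'] {ι : Type} {b : ι → K}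

/-- some trace is not zero -/
theorem abs_ne (hs : SepB b g) (hr : Module.finrank L K' < g) {u : K'}
    (hu : u ≠ 0) (hu' : u ∈ IntermediateField.adjoin L (Set.range (algebraMap K K'))) :
    ∃ i, Algebra.trace L K' (algebraMap K K' (b i) * u) ≠ 0 := by
  have hcL : CharZero L := charZero_of_injective_algebraMap (algebraMap ℂ L).injective
  by_contra hcon
  push Not at hcon
  obtain ⟨S, κ, hS, hSc, hκ, hsum⟩ := fTRS L K K' (AlgebraicClosure L) u hu hu'
    (IsScalarTower.toAlgHom ℂ L (AlgebraicClosure L))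
  refine hs (AlgebraicClosure L) S κ hS (fun ρ hρ => (hκ ρ hρ).1) (lt_of_le_of_lt hSc hr)
    fun i => ?_
  rw [← hsum, hcon i, map_zero]

/-- two fibres -/
theorem abs_two (hs : SepB b g) (hr : 2 * Module.finrank L K' < g) {u : K'}
    (hu : u ≠ 0) (hu' : u ∈ IntermediateField.adjoin L (Set.range (algebraMap K K')))
    {i₀ : ι} (hi₀ : Algebra.trace L K' (algebraMap K K' (b i₀) * u) ≠ 0) {Ω : Type} [Field Ω]
    [Algebra ℂ Ω] [IsAlgClosed Ω] (σ τ : L →ₐ[ℂ] Ω)
    (hστ : ∀ i, σ (Algebra.trace L K' (algebraMap K K' (b i) * u) /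
        Algebra.trace L K' (algebraMap K K' (b i₀) * u)) =
      τ (Algebra.trace L K' (algebraMap K K' (b i) * u) /
        Algebra.trace L K' (algebraMap K K' (b i₀) * u))) :
    ∃ σ' τ' : K' →ₐ[ℂ] Ω, (∀ a, σ' (algebraMap L K' a) = σ a) ∧
      (∀ a, τ' (algebraMap L K' a) = τ a) ∧
      ∀ b : K, σ' (algebraMap K K' b) = τ' (algebraMap K K' b) := by
  classical
  have hcL : CharZero L := charZero_of_injective_algebraMap (algebraMap ℂ L).injective
  obtain ⟨S, κ, hS, hSc, hκ, hsum⟩ := fTRS L K K' Ω u hu hu' σ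
  obtain ⟨S', κ', hS', hSc', hκ', hsum'⟩ := fTRS L K K' Ω u hu hu' τ
  by_contra hcon
  push Not at hcon
  obtain ⟨w, hw⟩ : ∃ w, w = Algebra.trace L K' (algebraMap K K' (b i₀) * u) := ⟨_, rfl⟩
  rw [← hw] at hi₀ hστ
  have hσw : σ w ≠ 0 := (map_ne_zero σ).2 hi₀
  have hτw : τ w ≠ 0 := (map_ne_zero τ).2 hi₀
  have hdisj : Disjoint S S' := by
    rw [Finset.disjoint_left]
    intro ρ hρ hρ'
    obtain ⟨-, σ', h1, h2⟩ := hκ ρ hρ
    obtain ⟨-, τ', h3, h4⟩ := hκ' ρ hρ'
    obtain ⟨b, hb⟩ := hcon σ' τ' h1 h3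
    exact hb (by rw [h2, h4])
  obtain ⟨lam, hlam⟩ : ∃ lam : (K →ₐ[ℂ] Ω) → Ω, ∀ ρ, lam ρ =
      if ρ ∈ S then τ w * κ ρ else -(σ w * κ' ρ) := ⟨_, fun _ => rfl⟩
  have hlam1 : ∀ ρ ∈ S, lam ρ = τ w * κ ρ := fun ρ h => by rw [hlam, if_pos h]
  have hlam2 : ∀ ρ ∈ S', lam ρ = -(σ w * κ' ρ) := fun ρ h => by
    rw [hlam, if_neg (Finset.disjoint_right.1 hdisj h)]
  refine hs Ω (S ∪ S') lam (hS.mono Finset.subset_union_left) (fun ρ hρ => ?_)
    (lt_of_le_of_lt ((Finset.card_union_le _ _).trans (by omega)) hr) fun i => ?_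
  · rcases Finset.mem_union.1 hρ with h | h
    · rw [hlam1 ρ h]
      exact mul_ne_zero hτw (hκ ρ h).1
    · rw [hlam2 ρ h]
      exact neg_ne_zero.2 (mul_ne_zero hσw (hκ' ρ h).1)
  · rw [Finset.sum_union hdisj]
    have h1 : ∑ ρ ∈ S, lam ρ * ρ (b i) =
        τ w * σ (Algebra.trace L K' (algebraMap K K' (b i) * u)) := by
      rw [hsum, Finset.mul_sum]
      exact Finset.sum_congr rfl fun ρ h => by rw [hlam1 ρ h, mul_assoc]
    have h2 : ∑ ρ ∈ S', lam ρ * ρ (b i) =
        -(σ w * τ (Algebra.trace L K' (algebraMap K K' (b i) * u))) := by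
      rw [hsum', Finset.mul_sum, ← Finset.sum_neg_distrib]
      exact Finset.sum_congr rfl fun ρ h => by rw [hlam2 ρ h, neg_mul, mul_assoc]
    have h3 := hστ i
    rw [map_div₀, map_div₀, div_eq_div_iff hσw hτw] at h3
    rw [h1, h2]
    linear_combination h3

/-- many linearly independent traces -/
theorem abs_k (hn : 1 ≤ n) (hK : Algebra.trdeg ℂ K = n) (hL : Algebra.trdeg ℂ L = n)
    [Algebra.EssFiniteType ℂ L] {k : ℕ} (hs : SepB b g) (hr : k * Module.finrank L K' < g) {u : K'}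
    (hu : u ≠ 0) (hu' : u ∈ IntermediateField.adjoin L (Set.range (algebraMap K K'))) :
    ∃ j : Fin k → ι, LinearIndependent ℂ fun t =>
      Algebra.trace L K' (algebraMap K K' (b (j t)) * u) := by
  classical
  have hcL : CharZero L := charZero_of_injective_algebraMap (algebraMap ℂ L).injective
  obtain ⟨Ω, _, _, _, σ, hσ⟩ := fKGP n k L hL
  choose S κ hS hSc hκ hsum using fun i => fTRS L K K' Ω u hu hu' (σ i)
  -- the fibres are disjoint
  have hdisj : ∀ i j, i ≠ j → Disjoint (S i) (S j) := by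
    intro i j hij
    rw [Finset.disjoint_left]
    intro ρ hρ hρ'
    obtain ⟨-, θ, h3, h4⟩ := hκ i ρ hρ
    obtain ⟨-, θ', h5, h6⟩ := hκ j ρ hρ'
    have h7 : ∀ b : K, ∃ z : ℂ, b = algebraMap ℂ K z := by
      intro b
      obtain ⟨z, hz⟩ := hσ i j hij (ρ b) (by rw [← h4]; exact alg_range _ _ h3 _)
        (by rw [← h6]; exact alg_range _ _ h5 _)
      refine ⟨z, ρ.toRingHom.injective ?_⟩
      change ρ b = ρ (algebraMap ℂ K z)
      rw [hz, AlgHom.commutes]
    have h8 : Algebra.IsAlgebraic ℂ K := ⟨fun b => by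
      obtain ⟨z, rfl⟩ := h7 b
      exact isAlgebraic_algebraMap z⟩
    have h9 : Algebra.trdeg ℂ K = 0 := trdeg_eq_zero_iff.2 h8
    rw [hK] at h9
    have : n = 0 := by exact_mod_cast h9
    omega
  obtain ⟨v, hv⟩ : ∃ v : ι → Fin k → Ω,
    ∀ P i, v P i = σ i (Algebra.trace L K' (algebraMap K K' (b P) * u)) :=
    ⟨_, fun _ _ => rfl⟩
  have hspan : Submodule.span Ω (Set.range v) = ⊤ := by
    by_contra hne
    obtain ⟨f, hf0, hf⟩ := Submodule.exists_le_ker_of_lt_top _ (lt_top_iff_ne_top.2 hne)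
    obtain ⟨a, ha⟩ : ∃ a : Fin k → Ω, ∀ i, a i = f (Pi.single i 1) := ⟨_, fun _ => rfl⟩
    have hfa : ∀ y : Fin k → Ω, f y = ∑ i, a i * y i := by
      intro y
      conv_lhs => rw [LinearMap.pi_apply_eq_sum_univ f y]
      refine Finset.sum_congr rfl fun i _ => ?_
      rw [smul_eq_mul, mul_comm, ha]
      congr 2
      funext j
      rw [Pi.single_apply]
      simp only [eq_comm]
    obtain ⟨i₀, hi₀⟩ : ∃ i, a i ≠ 0 := by
      by_contra hcon
      push Not at hcon
      apply hf0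
      ext y
      · simp [hfa, hcon]
    obtain ⟨lam, hlam⟩ : ∃ lam : (K →ₐ[ℂ] Ω) → Ω, ∀ ρ, lam ρ =
      ∑ i, if ρ ∈ S i then a i * κ i ρ else 0 := ⟨_, fun _ => rfl⟩
    have hlam' : ∀ i, ∀ ρ ∈ S i, lam ρ = a i * κ i ρ := by
      intro i ρ hρ
      rw [hlam, Finset.sum_eq_single i]
      · rw [if_pos hρ]
      · intro j _ hj
        rw [if_neg (Finset.disjoint_left.1 (hdisj i j (Ne.symm hj)) hρ)]
      · intro h
        exact absurd (Finset.mem_univ _) h
    refine hs Ω ((Finset.univ.filter fun i => a i ≠ 0).biUnion S) lam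
      ⟨(hS i₀).choose, Finset.mem_biUnion.2 ⟨i₀, Finset.mem_filter.2 ⟨Finset.mem_univ _, hi₀⟩,
        (hS i₀).choose_spec⟩⟩ (fun ρ hρ => ?_)
      (lt_of_le_of_lt Finset.card_biUnion_le (lt_of_le_of_lt (Finset.sum_le_card_nsmul _ _
        (Module.finrank L K') fun i _ => hSc i) (lt_of_le_of_lt ?_ hr))) fun P => ?_
    · obtain ⟨i, hi, hρ'⟩ := Finset.mem_biUnion.1 hρ
      rw [hlam' i ρ hρ']
      exact mul_ne_zero (Finset.mem_filter.1 hi).2 (hκ i ρ hρ').1
    · rw [smul_eq_mul]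
      refine Nat.mul_le_mul_right _ ((Finset.card_filter_le _ _).trans ?_)
      simp
    · rw [Finset.sum_biUnion fun i _ j _ hij => hdisj i j hij]
      have h3 : f (v P) = 0 := hf (Submodule.subset_span ⟨_, rfl⟩)
      rw [hfa] at h3
      rw [Finset.sum_filter]
      refine Eq.trans (Finset.sum_congr rfl fun i _ => ?_) h3
      split_ifs with h4
      · rw [hv, hsum, Finset.mul_sum]
        refine Finset.sum_congr rfl fun ρ hρ => ?_
        rw [hlam' i ρ hρ]
        ring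
      · push Not at h4
        rw [h4, zero_mul]
  obtain ⟨c, hc, hcs, hcl⟩ := exists_linearIndependent Ω (Set.range v)
  rw [hspan] at hcs
  have hB := Module.Basis.mk hcl (by rw [Subtype.range_coe, hcs])
  have e : Fin k ≃ c := (hB.indexEquiv (Pi.basisFun Ω (Fin k))).symm
  choose P hP using fun j : Fin k => hc (e j).2
  have hli : LinearIndependent Ω fun j => v (P j) := by
    have h3 := hcl.comp e e.injective
    have h4 : (fun j => v (P j)) = Subtype.val ∘ e := funext hP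
    rw [h4]
    exact h3
  refine ⟨P, ?_⟩
  rw [Fintype.linearIndependent_iff] at hli ⊢
  intro c hc j
  have h3 := hli (fun j => algebraMap ℂ Ω (c j)) (by
    funext i
    rw [Finset.sum_apply, Pi.zero_apply]
    have h6 := congrArg (σ i) hc
    rw [map_sum, map_zero] at h6
    refine Eq.trans (Finset.sum_congr rfl fun j _ => ?_) h6
    rw [Pi.smul_apply, smul_eq_mul, hv, map_smul, Algebra.smul_def]) j
  exact (map_eq_zero (algebraMap ℂ Ω)).1 h3

/-- the ratios of the traces generate a field of full transcendence degree -/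
theorem abs_alg (hK : Algebra.trdeg ℂ K = n) (hL : Algebra.trdeg ℂ L = n)
    (hs : SepB b g) (hr : 2 * Module.finrank L K' < g) {u : K'}
    (hu : u ≠ 0) (hu' : u ∈ IntermediateField.adjoin L (Set.range (algebraMap K K')))
    {i₀ : ι} (hi₀ : Algebra.trace L K' (algebraMap K K' (b i₀) * u) ≠ 0) :
    Algebra.IsAlgebraic (IntermediateField.adjoin ℂ (Set.range fun i =>
      Algebra.trace L K' (algebraMap K K' (b i) * u) /
        Algebra.trace L K' (algebraMap K K' (b i₀) * u))) L := by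
  have hcL : CharZero L := charZero_of_injective_algebraMap (algebraMap ℂ L).injective
  by_contra halg
  obtain ⟨Ω, _, _, _, σ, τ, h1, h2⟩ := fGPR L _ n hL halg
  obtain ⟨σ', τ', h3, h4, h5⟩ := abs_two hs hr hu hu' hi₀ σ τ
    fun i => h1 _ (IntermediateField.subset_adjoin ℂ _ ⟨i, rfl⟩)
  refine h2 K hK (σ'.comp (IsScalarTower.toAlgHom ℂ K K')) (fun b => alg_range _ _ h3 _) fun b => ?_
  have h6 : σ'.comp (IsScalarTower.toAlgHom ℂ K K') b = τ' (algebraMap K K' b) := h5 b
  rw [h6]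
  exact alg_range _ _ h4 _

end

/-- the ratios of the traces generate the function field -/
theorem abs_bir {g : ℕ} {K L : Type} [Field K] [Algebra ℂ K] [Field L] [Algebra ℂ L]
    [Algebra L K] [IsScalarTower ℂ L K] [FiniteDimensional L K] {ι : Type} {b : ι → K}
    (hs : SepB b g) (hr : 2 * Module.finrank L K < g) {u : K} (hu : u ≠ 0)
    {i₀ : ι} (hi₀ : Algebra.trace L K (b i₀ * u) ≠ 0) :
    IntermediateField.adjoin ℂ (Set.range fun i =>
      Algebra.trace L K (b i * u) / Algebra.trace L K (b i₀ * u)) = ⊤ := by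
  by_contra hcon
  obtain ⟨Ω, _, _, _, σ, τ, h1, h2⟩ := fPAI L _ hcon
  obtain ⟨σ', τ', h3, h4, h5⟩ := abs_two (K' := K) hs hr hu
    (IntermediateField.subset_adjoin _ _ ⟨u, rfl⟩) hi₀ σ τ
    fun i => h1 _ (IntermediateField.subset_adjoin ℂ _ ⟨i, rfl⟩)
  apply h2
  ext a
  rw [← h3, ← h4]
  exact h5 (algebraMap L K a)

end Pool.Agent.Run7.h260.LP
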