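import Pool.Agent.Run7.h260.LP.Pow

/-!
# Products of functions which separate generic points
-/

set_option autoImplicit false
set_option linter.unusedSectionVars false
set_option linter.overlappingInstances false

open FF IntermediateField

namespace Pool.Agent.Run7.h260.LP

/-- a combination which is one at a point and zero at the others -/
theorem exists_comb {K : Type} [Field K] [Algebra ℂ K] {ι : Type} {b : ι → K} {g : ℕ}
    (hs : SepB b g) {Ω : Type} [Field Ω] [Algebra ℂ Ω] [IsAlgClosed Ω]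
    (A : Finset (K →ₐ[ℂ] Ω)) (hA : A.card < g) {τ₀ : K →ₐ[ℂ] Ω} (hτ₀ : τ₀ ∈ A) :
    ∃ c : ι →₀ Ω, (c.sum fun i a => a * τ₀ (b i)) = 1 ∧
      ∀ τ ∈ A, τ ≠ τ₀ → (c.sum fun i a => a * τ (b i)) = 0 := by
  classical
  obtain ⟨v, hv⟩ : ∃ v : ι → A → Ω, ∀ i τ, v i τ = τ.1 (b i) := ⟨_, fun _ _ => rfl⟩
  have hspan : Submodule.span Ω (Set.range v) = ⊤ := by
    by_contra hne
    obtain ⟨f, hf0, hf⟩ := Submodule.exists_le_ker_of_lt_top _ (lt_top_iff_ne_top.2 hne)
    obtain ⟨a, ha⟩ : ∃ a : A → Ω, ∀ i, a i = f (Pi.single i 1) := ⟨_, fun _ => rfl⟩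
    have hfa : ∀ y : A → Ω, f y = ∑ i, a i * y i := by
      intro y
      conv_lhs => rw [LinearMap.pi_apply_eq_sum_univ f y]
      refine Finset.sum_congr rfl fun i _ => ?_
      rw [smul_eq_mul, mul_comm, ha]
      congr 2
      funext j
      rw [Pi.single_apply]
      simp only [eq_comm]
    obtain ⟨i₀, hi₀⟩ : ∃ i, a i ≠ 0 := by
      by_contra hcon
      push Not at hcon
      apply hf0
      ext y
      simp [hfa, hcon]
    obtain ⟨lam, hlam⟩ : ∃ lam : (K →ₐ[ℂ] Ω) → Ω, ∀ ρ : A, lam ρ.1 = a ρ :=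
      ⟨fun ρ => if h : ρ ∈ A then a ⟨ρ, h⟩ else 0, fun ρ => by
        change dite _ _ _ = _
        rw [dif_pos ρ.2]⟩
    refine hs Ω (A.filter fun ρ => lam ρ ≠ 0) lam ⟨i₀.1, Finset.mem_filter.2 ⟨i₀.2, by
      rw [hlam]; exact hi₀⟩⟩ (fun ρ hρ => (Finset.mem_filter.1 hρ).2)
      (lt_of_le_of_lt (Finset.card_filter_le _ _) hA) fun i => ?_
    have h1 : f (v i) = 0 := hf (Submodule.subset_span ⟨i, rfl⟩)
    rw [hfa] at h1
    rw [Finset.sum_filter, ← Finset.sum_coe_sort A]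
    refine Eq.trans (Finset.sum_congr rfl fun ρ _ => ?_) h1
    rw [hv, ← hlam]
    split_ifs with h2
    · rfl
    · push Not at h2
      rw [h2, zero_mul]
  have h1 : (Pi.single ⟨τ₀, hτ₀⟩ 1 : A → Ω) ∈ Submodule.span Ω (Set.range v) := by
    rw [hspan]
    exact Submodule.mem_top
  obtain ⟨c, hc⟩ := Finsupp.mem_span_range_iff_exists_finsupp.1 h1
  have h2 : ∀ τ : A, (c.sum fun i a => a * τ.1 (b i)) = (Pi.single ⟨τ₀, hτ₀⟩ 1 : A → Ω) τ := by
    intro τ
    rw [← hc]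
    simp only [Finsupp.sum]
    rw [Finset.sum_apply]
    refine Finset.sum_congr rfl fun i _ => ?_
    rw [Pi.smul_apply, smul_eq_mul, hv]
  refine ⟨c, ?_, fun τ hτ hne => ?_⟩
  · rw [h2 ⟨τ₀, hτ₀⟩, Pi.single_eq_same]
  · rw [h2 ⟨τ, hτ⟩, Pi.single_eq_of_ne]
    intro h
    exact hne (congrArg Subtype.val h)

/-- **Products of two families.** -/
theorem two_mul' {K : Type} [Field K] [Algebra ℂ K] {ι ι' : Type} {b : ι → K} {b' : ι' → K}
    {g g' : ℕ} (hs : SepB b g) (hs' : SepB b' g') (hg : 2 ≤ g) (hg' : 2 ≤ g') :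
    SepB (fun p : ι × ι' => b p.1 * b' p.2) (g + g' - 2) := by
  classical
  intro Ω _ _ _ S lam hS hlam hcard hrel
  obtain ⟨ρ₀, hρ₀⟩ := hS
  -- the points which are treated by the first family
  obtain ⟨A, hAS, hA⟩ := Finset.exists_subset_card_eq
    (s := S.erase ρ₀) (n := min (g - 2) (S.erase ρ₀).card) (min_le_right _ _)
  have hA0 : ρ₀ ∉ A := fun h => Finset.notMem_erase _ _ (hAS h)
  obtain ⟨c, hc1, hc2⟩ := exists_comb hs (insert ρ₀ A) (by
    rw [Finset.card_insert_of_notMem hA0, hA]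
    omega) (Finset.mem_insert_self _ _)
  obtain ⟨φ, hφ⟩ : ∃ φ : (K →ₐ[ℂ] Ω) → Ω, ∀ ρ, φ ρ = c.sum fun i a => a * ρ (b i) :=
    ⟨_, fun _ => rfl⟩
  have hcS : (S.erase ρ₀).card = S.card - 1 := Finset.card_erase_of_mem hρ₀
  have hS1 : 1 ≤ S.card := Finset.card_pos.2 ⟨ρ₀, hρ₀⟩
  refine hs' Ω (S.filter fun ρ => φ ρ ≠ 0) (fun ρ => lam ρ * φ ρ)
    ⟨ρ₀, Finset.mem_filter.2 ⟨hρ₀, by rw [hφ, hc1]; exact one_ne_zero⟩⟩
    (fun ρ hρ => mul_ne_zero (hlam ρ (Finset.mem_filter.1 hρ).1) (Finset.mem_filter.1 hρ).2)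
    ?_ fun j => ?_
  · have h1 : (S.filter fun ρ => φ ρ ≠ 0) ⊆ S \ A := by
      intro ρ hρ
      rw [Finset.mem_filter] at hρ
      refine Finset.mem_sdiff.2 ⟨hρ.1, fun hA' => hρ.2 ?_⟩
      rw [hφ]
      exact hc2 ρ (Finset.mem_insert_of_mem hA') fun h => hA0 (h ▸ hA')
    have h2 : (S \ A).card = S.card - A.card :=
      Finset.card_sdiff_of_subset (hAS.trans (Finset.erase_subset _ _))
    have h3 := Finset.card_le_card h1
    rw [hcS] at hA
    have h4 : A.card = min (g - 2) (S.card - 1) := hA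
    omega
  · have h1 : ∑ ρ ∈ S, lam ρ * φ ρ * ρ (b' j) = 0 := by
      have h2 : ∀ ρ ∈ S, lam ρ * φ ρ * ρ (b' j) =
          c.sum fun i a => a * (lam ρ * ρ (b i * b' j)) := by
        intro ρ _
        rw [hφ]
        simp only [Finsupp.sum]
        rw [Finset.mul_sum, Finset.sum_mul]
        refine Finset.sum_congr rfl fun i _ => ?_
        rw [map_mul]
        ring
      rw [Finset.sum_congr rfl h2]
      simp only [Finsupp.sum]
      rw [Finset.sum_comm]
      refine Finset.sum_eq_zero fun i _ => ?_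
      rw [← Finset.mul_sum, hrel (i, j), mul_zero]
    rw [Finset.sum_filter]
    refine Eq.trans (Finset.sum_congr rfl fun ρ _ => ?_) h1
    split_ifs with h2
    · rfl
    · push Not at h2
      rw [h2, mul_zero, zero_mul]

/-- **Products of `l` members of a family.** -/
theorem pow_mul' {K : Type} [Field K] [Algebra ℂ K] {ι : Type} {b : ι → K} {g : ℕ}
    (hs : SepB b g) (hg : 2 ≤ g) : ∀ l : ℕ,
    SepB (fun f : Fin l → ι => ∏ t, b (f t)) (l * (g - 2) + 2) := by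
  intro l
  induction l with
  | zero =>
    intro Ω _ _ _ S lam hS hlam hcard hrel
    obtain ⟨ρ₀, hρ₀⟩ := hS
    have h1 : S = {ρ₀} := by
      rw [zero_mul, zero_add] at hcard
      have h2 : S.card ≤ 1 := by omega
      rw [Finset.card_le_one] at h2
      ext ρ
      rw [Finset.mem_singleton]
      exact ⟨fun h => h2 ρ h ρ₀ hρ₀, fun h => h ▸ hρ₀⟩
    have h2 := hrel (fun t => t.elim0)
    rw [h1, Finset.sum_singleton] at h2
    simp only [Finset.univ_eq_empty, Finset.prod_empty, map_one, mul_one] at h2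
    exact hlam ρ₀ hρ₀ h2
  | succ l ih =>
    have h1 := two_mul' ih hs (by omega) hg
    have h2 : l * (g - 2) + 2 + g - 2 = (l + 1) * (g - 2) + 2 := by
      have : (l + 1) * (g - 2) = l * (g - 2) + (g - 2) := by ring
      omega
    rw [h2] at h1
    intro Ω _ _ _ S lam hS hlam hcard hrel
    refine h1 Ω S lam hS hlam hcard fun p => ?_
    have h3 := hrel (Fin.snoc (α := fun _ => ι) p.1 p.2)
    simp only [Fin.prod_univ_castSucc, Fin.snoc_castSucc, Fin.snoc_last] at h3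
    exact h3

/-- **Products of varieties.** -/
theorem prod_sep {g : ℕ} : ∀ (t : ℕ) (E : Fin t → Type) [∀ i, Field (E i)]
    [∀ i, Algebra ℂ (E i)] {K : Type} [Field K] [Algebra ℂ K] (j : ∀ i, E i →ₐ[ℂ] K)
    (V : ∀ i, Set (E i)) (_ : ∀ i, SepB (fun v : V i => (v : E i)) g) (Ω : Type) [Field Ω]
    [Algebra ℂ Ω] [IsAlgClosed Ω] (S : Finset (K →ₐ[ℂ] Ω)) (lam : (K →ₐ[ℂ] Ω) → Ω)
    (_ : S.Nonempty) (_ : ∀ ρ ∈ S, lam ρ ≠ 0) (_ : S.card < g)
    (_ : ∀ ρ ∈ S, ∀ ρ' ∈ S, (∀ i v, ρ (j i v) = ρ' (j i v)) → ρ = ρ')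
    (_ : ∀ f : ∀ i, V i, ∑ ρ ∈ S, lam ρ * ρ (∏ i, j i (f i : E i)) = 0), False := by
  classical
  intro t
  induction t with
  | zero =>
    intro E _ _ K _ _ j V hV Ω _ _ _ S lam hS hlam hcard hinj hrel
    obtain ⟨ρ₀, hρ₀⟩ := hS
    have h1 : S = {ρ₀} := by
      ext ρ
      rw [Finset.mem_singleton]
      exact ⟨fun h => hinj ρ h ρ₀ hρ₀ fun i => i.elim0, fun h => h ▸ hρ₀⟩
    have h2 := hrel (fun i => i.elim0)
    rw [h1, Finset.sum_singleton] at h2
    simp only [Finset.univ_eq_empty, Finset.prod_empty, map_one, mul_one] at h2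
    exact hlam ρ₀ hρ₀ h2
  | succ t ih =>
    intro E _ _ K _ _ j V hV Ω _ _ _ S lam hS hlam hcard hinj hrel
    obtain ⟨ρ₀, hρ₀⟩ := hS
    obtain ⟨r, hr⟩ : ∃ r : (K →ₐ[ℂ] Ω) → (E (Fin.last t) →ₐ[ℂ] Ω),
      ∀ ρ, r ρ = ρ.comp (j (Fin.last t)) := ⟨_, fun _ => rfl⟩
    obtain ⟨c, hc1, hc2⟩ := exists_comb (hV (Fin.last t)) (S.image r)
      (lt_of_le_of_lt Finset.card_image_le hcard) (Finset.mem_image_of_mem r hρ₀)
    obtain ⟨φ, hφ⟩ : ∃ φ : (K →ₐ[ℂ] Ω) → Ω, ∀ ρ, φ ρ =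
      c.sum fun i a => a * r ρ (i : E (Fin.last t)) := ⟨_, fun _ => rfl⟩
    have hφ1 : ∀ ρ ∈ S, φ ρ = if r ρ = r ρ₀ then 1 else 0 := by
      intro ρ hρ
      rw [hφ]
      split_ifs with h
      · rw [h]
        exact hc1
      · exact hc2 _ (Finset.mem_image_of_mem r hρ) h
    refine ih (fun i => E i.castSucc) (fun i => j i.castSucc) (fun i => V i.castSucc)
      (fun i => hV _) Ω (S.filter fun ρ => r ρ = r ρ₀) lam
      ⟨ρ₀, Finset.mem_filter.2 ⟨hρ₀, rfl⟩⟩ (fun ρ hρ => hlam ρ (Finset.mem_filter.1 hρ).1)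
      (lt_of_le_of_lt (Finset.card_filter_le _ _) hcard) (fun ρ hρ ρ' hρ' h => ?_) fun f => ?_
    · rw [Finset.mem_filter] at hρ hρ'
      refine hinj ρ hρ.1 ρ' hρ'.1 fun i => ?_
      induction i using Fin.lastCases with
      | last =>
        intro v
        have h1 : r ρ = r ρ' := hρ.2.trans hρ'.2.symm
        rw [hr, hr] at h1
        exact DFunLike.congr_fun h1 v
      | cast i => exact h i
    · have h1 : ∑ ρ ∈ S, lam ρ * ρ (∏ i : Fin t, j i.castSucc (f i : E i.castSucc)) * φ ρ = 0 := by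
        have h2 : ∀ ρ ∈ S, lam ρ * ρ (∏ i : Fin t, j i.castSucc (f i : E i.castSucc)) * φ ρ =
            c.sum fun i a => a * (lam ρ * ρ ((∏ i : Fin t, j i.castSucc (f i : E i.castSucc)) *
              j (Fin.last t) (i : E (Fin.last t)))) := by
          intro ρ _
          rw [hφ, hr]
          simp only [Finsupp.sum]
          rw [Finset.mul_sum]
          refine Finset.sum_congr rfl fun i _ => ?_
          rw [map_mul, AlgHom.comp_apply]
          ring
        rw [Finset.sum_congr rfl h2]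
        simp only [Finsupp.sum]
        rw [Finset.sum_comm]
        refine Finset.sum_eq_zero fun i _ => ?_
        rw [← Finset.mul_sum]
        have h3 := hrel (Fin.lastCases i f)
        simp only [Fin.prod_univ_castSucc, Fin.lastCases_castSucc, Fin.lastCases_last] at h3
        rw [h3, mul_zero]
      rw [Finset.sum_filter]
      refine Eq.trans (Finset.sum_congr rfl fun ρ hρ => ?_) h1
      rw [hφ1 ρ hρ]
      split_ifs with h2
      · rw [mul_one]
      · rw [mul_zero]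

end Pool.Agent.Run7.h260.LP
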