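import Pool.Agent.R882.LTr
import Pool.Agent.N619.GP.TRF
import Pool.Agent.Y172.Defs

/-!
# Traces of pluricanonical forms on pairs with fractional coefficients
-/

set_option autoImplicit false
set_option linter.unusedSectionVars false
set_option linter.overlappingInstances false

open FF Pool.Agent.W603.LV Pool.Agent.Y184.NT IntermediateField
open Pool.Agent.W602.GT Pool.Agent.Y172

namespace Pool.Agent.Run7.h260.LP

section

variable {K : Type} [Field K] [Algebra ℂ K] {n : ℕ}

/-- The `l`-canonical form with the value `a` on the vector fields dual to the coordinates `y`. -/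
noncomputable def plForm (l : ℕ) (y : Fin n → K) (a : K) (D : Fin n → Derivation ℂ K K) : K :=
  (Matrix.of fun i j => D i (y j) : Matrix (Fin n) (Fin n) K).det ^ l * a

theorem plForm_pluri (l : ℕ) (y : Fin n → K) (a : K) : IsPluri l (plForm l y a) := by
  intro A D
  have e1 : (Matrix.of fun a b => (∑ j, A a j • D j) (y b)) =
      A * Matrix.of fun a b => D a (y b) := by
    ext a b
    rw [Matrix.of_apply, Matrix.mul_apply, sum_smul_apply]
    rfl
  change (Matrix.of fun a b => (∑ j, A a j • D j) (y b)).det ^ l * _ = _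
  rw [e1, Matrix.det_mul, mul_pow, mul_assoc]
  rfl

end

section

variable {K L : Type} [Field K] [Field L] [Algebra ℂ K] [Algebra ℂ L] [Algebra K L]
  [IsScalarTower ℂ K L] [FiniteDimensional K L] [Algebra.EssFiniteType ℂ K]
  [Algebra.EssFiniteType ℂ L] {n : ℕ}

/-- the trace in the coordinates of a place -/
theorem plForm_val {y : Fin n → K} {E : Fin n → Derivation ℂ K K}
    (hy : IsTranscendenceBasis ℂ y) (hE : ∀ i j, E i (y j) = if i = j then 1 else 0)
    {E' : Fin n → Derivation ℂ L L}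
    (hE' : ∀ i f, E' i (algebraMap K L f) = algebraMap K L (E i f))
    {yP : Fin n → K} {EP : Fin n → Derivation ℂ K K} (hyP : IsTranscendenceBasis ℂ yP)
    (hEP : ∀ i j, EP i (yP j) = if i = j then 1 else 0) {EP' : Fin n → Derivation ℂ L L}
    (hEP' : ∀ i f, EP' i (algebraMap K L f) = algebraMap K L (EP i f)) {l : ℕ}
    {W : (Fin n → Derivation ℂ L L) → L} (hW : IsPluri l W) (G : Fin n → Derivation ℂ K K) :
    plForm l y (Algebra.trace K L (W E')) G =
      (Matrix.of fun i j => G i (yP j) : Matrix (Fin n) (Fin n) K).det ^ l *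
        Algebra.trace K L (W EP') := by
  classical
  obtain ⟨B, hB⟩ : ∃ B : Matrix (Fin n) (Fin n) K, B = Matrix.of fun i j => E i (yP j) :=
    ⟨_, rfl⟩
  have hC : (Matrix.of fun i j => G i (yP j) : Matrix (Fin n) (Fin n) K).det =
      (Matrix.of fun i j => G i (y j) : Matrix (Fin n) (Fin n) K).det * B.det := by
    rw [← Matrix.det_mul]
    congr 1
    ext i j
    rw [Matrix.of_apply, Matrix.mul_apply, hB]
    have h1 := Pool.Agent.W73.PG.PULL.expand y hy E hE (G i)
    conv_lhs => rw [← h1]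
    rw [sum_smul_apply]
    rfl
  have hWB : W E' = algebraMap K L (B.det ^ l) * W EP' := by
    have h1 := pluri_coord (hyP.algebraMap_comp (A := L)) (lift_dual hEP hEP') hW E'
    rw [h1, map_pow]
    congr 2
    rw [hB, RingHom.map_det]
    congr 1
    ext i j
    rw [Matrix.of_apply, RingHom.mapMatrix_apply, Matrix.map_apply, Matrix.of_apply]
    exact hE' i (yP j)
  rw [plForm, hC, hWB, ← Algebra.smul_def, map_smul, smul_eq_mul, mul_pow]
  ring

/-- an elementary inequality -/
theorem floor_ineq {e l : ℕ} (he : 1 ≤ e) (hl : 1 ≤ l) {δ : ℚ}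
    (h : 1 - 1 / ((min e l : ℕ) : ℚ) ≤ δ) : (l - 1 : ℤ) * (e - 1) ≤ (⌊(l : ℚ) * δ⌋₊ : ℤ) * e := by
  have hl' : (1 : ℚ) ≤ l := by exact_mod_cast hl
  have he' : (1 : ℚ) ≤ e := by exact_mod_cast he
  rcases le_total e l with hel | hel
  · rw [min_eq_left hel] at h
    have h1 : (l : ℚ) * δ < ⌊(l : ℚ) * δ⌋₊ + 1 := Nat.lt_floor_add_one _
    have h2 : (l : ℚ) * (1 - 1 / e) ≤ l * δ := mul_le_mul_of_nonneg_left h (by linarith)
    have h3 : (l : ℚ) * (e - 1) < (⌊(l : ℚ) * δ⌋₊ + 1) * e := by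
      have h4 : (l : ℚ) * (e - 1) = l * (1 - 1 / e) * e := by
        field_simp
      rw [h4]
      exact mul_lt_mul_of_pos_right (by linarith) (by linarith)
    have h5 : (l : ℤ) * (e - 1) < ((⌊(l : ℚ) * δ⌋₊ : ℤ) + 1) * e := by exact_mod_cast h3
    nlinarith
  · rw [min_eq_right hel] at h
    have h2 : (l : ℚ) * (1 - 1 / l) ≤ l * δ := mul_le_mul_of_nonneg_left h (by linarith)
    have h3 : (l : ℚ) * (1 - 1 / l) = ((l - 1 : ℕ) : ℚ) := by
      rw [Nat.cast_sub hl]
      field_simp
      push_cast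
      ring
    rw [h3] at h2
    have h4 : l - 1 ≤ ⌊(l : ℚ) * δ⌋₊ := Nat.le_floor h2
    have h5 : (l - 1 : ℤ) ≤ (⌊(l : ℚ) * δ⌋₊ : ℤ) := by omega
    have h6 : (0 : ℤ) ≤ (⌊(l : ℚ) * δ⌋₊ : ℤ) := by positivity
    have h7 : (0 : ℤ) ≤ (l : ℤ) - 1 := by omega
    have h8 : (1 : ℤ) ≤ e := by exact_mod_cast he
    nlinarith

/-- the order of a trace -/
theorem trace_ord {P : Place ℂ K} {π : K} (hπ : P.ord π = 1) {f : L} (a : ℕ)
    (h : ∀ (Q : Place ℂ L) (e : ℕ), Over Q P e → Ge Q (1 - e) (algebraMap K L π ^ a * f)) :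
    Ge P (-(a : ℤ)) (Algebra.trace K L f) := by
  have hπ0 : π ≠ 0 := by
    rintro rfl
    rw [P.ord_zero] at hπ
    exact absurd hπ (by norm_num)
  have h1 := Pool.Agent.Y692.NT.trace_reg P (π ^ a • f) fun Q e hQ => by
    rw [Algebra.smul_def, map_pow]
    exact h Q e hQ
  rw [map_smul, smul_eq_mul] at h1
  have h2 : Ge P (-(a : ℤ)) ((π ^ a)⁻¹) := Or.inr (by
    rw [P.ord_inv, P.ord_pow, hπ, mul_one])
  have h3 := h2.mul h1
  rw [← mul_assoc, inv_mul_cancel₀ (pow_ne_zero _ hπ0), one_mul, add_zero] at h3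
  exact h3

/-- **Traces of pluricanonical forms.** If the `l`-canonical form is regular at all places over `P`
then its trace has order at least `- l δ`, if `1 - 1 / min e l ≤ δ` for the ramification indices `e`;
if it is logarithmic then the same is true for `δ = 1`. -/
theorem plForm_ord (hn : Algebra.trdeg ℂ K = n) {y : Fin n → K} {E : Fin n → Derivation ℂ K K}
    (hy : IsTranscendenceBasis ℂ y) (hE : ∀ i j, E i (y j) = if i = j then 1 else 0)
    {E' : Fin n → Derivation ℂ L L}
    (hE' : ∀ i f, E' i (algebraMap K L f) = algebraMap K L (E i f)) {l : ℕ} (hl1 : 1 ≤ l)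
    (W : (Fin n → Derivation ℂ L L) → L) (hW : IsPluri l W) (P : Place ℂ K)
    (hP : Divisorial n P) {δ : ℚ} (hδ : 0 ≤ δ)
    (h : ∀ (Q : Place ℂ L) (e : ℕ), Over Q P e → LogAt Q W ∧
      (δ < 1 → RegAt Q W ∧ 1 - 1 / ((min e l : ℕ) : ℚ) ≤ δ)) :
    OrdGe P (plForm l y (Algebra.trace K L (W E'))) (-(l * δ)) := by
  classical
  have hnL : Algebra.trdeg ℂ L = n := trdeg_up (K := K) hn
  intro G hG
  obtain ⟨yP, EP, i0, hl⟩ := exists_loc hn hP
  choose EP' hEP' using fun i => exists_lift (L := L) hn (EP i)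
  rw [plForm_val hy hE hE' hl.bas hl.dual hEP' hW G]
  have h9 : Ge P 0 (Matrix.of fun i j => G i (yP j) : Matrix (Fin n) (Fin n) K).det :=
    Pool.Agent.W603.LV.ge_det P _ _ (fun _ _ => 0) (fun a b => hG a _ (hl.reg b))
      fun σ => by simp
  have h10 := h9.pow l
  rw [mul_zero] at h10
  -- the trace
  obtain ⟨a, ha, hT⟩ : ∃ a : ℕ, (a : ℚ) ≤ l * δ ∧
      Ge P (-(a : ℤ)) (Algebra.trace K L (W EP')) := by
    rcases lt_or_ge δ 1 with hδ1 | hδ1
    · refine ⟨⌊(l : ℚ) * δ⌋₊, Nat.floor_le (by positivity), trace_ord hl.unif _ fun Q e hQ => ?_⟩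
      have hQd : Divisorial n Q := divisorial_up hQ hP
      obtain ⟨h1, h2⟩ := (h Q e hQ).2 hδ1
      have h3 := down_ge hnL hQ hQd hl hEP' hW (c := 0) (fun G' hG' => by
        rcases h1 G' hG' with h | h
        · exact Or.inl h
        · exact Or.inr (by exact_mod_cast h))
      have h4 : Ge Q ((l : ℤ) - e * l) (W EP') := by
        rcases h3 with h3 | h3
        · exact Or.inl h3
        · right
          have h5 : (((l : ℤ) - e * l : ℤ) : ℝ) ≤ (Q.ord (W EP') : ℝ) := by
            push_cast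
            linarith
          exact_mod_cast h5
      have h5 : Ge Q (e : ℤ) (algebraMap K L (yP i0)) := Or.inr (by
        rw [hQ.2, hl.unif, mul_one])
      have h6 := (h5.pow ⌊(l : ℚ) * δ⌋₊).mul h4
      refine h6.mono ?_
      have h7 := floor_ineq hQ.1 hl1 h2
      nlinarith
    · refine ⟨l, by nlinarith [(by positivity : (0 : ℚ) ≤ l)], trace_ord hl.unif _ fun Q e hQ => ?_⟩
      have h1 := (h Q e hQ).1 (fun i => algebraMap K L (lc yP i0 i) • EP' i) fun i =>
        lift_log hQ (hl.log i) fun f => by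
          change algebraMap K L (lc yP i0 i) * EP' i (algebraMap K L f) =
            algebraMap K L (lc yP i0 i * EP i f)
          rw [hEP', map_mul]
      rw [pluri_diag hW (fun i => algebraMap K L (lc yP i0 i)) EP', ← map_prod, prod_lc] at h1
      have h2 : Ge Q 0 (algebraMap K L (yP i0) ^ l * W EP') := h1
      refine h2.mono ?_
      have := hQ.1
      omega
  have h11 := h10.mul hT
  rw [zero_add] at h11
  rcases h11 with h11 | h11
  · exact Or.inl h11
  · right
    have h12 : ((-(a : ℤ) : ℤ) : ℚ) ≤ (P.ord ((Matrix.of fun i j => G i (yP j)).det ^ l *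
      Algebra.trace K L (W EP')) : ℚ) := by exact_mod_cast h11
    refine le_trans ?_ h12
    push_cast
    linarith

end

section

variable {K K' : Type} [Field K] [Field K'] [Algebra ℂ K] [Algebra ℂ K'] [Algebra K K']
  [IsScalarTower ℂ K K'] [FiniteDimensional K K'] [Algebra.EssFiniteType ℂ K] {n l : ℕ}

/-- the pull-back of a form, in other coordinates -/
theorem pull_val (hn : Algebra.trdeg ℂ K = n) {y yP : Fin n → K}
    {e EP : Fin n → Derivation ℂ K K} (hy : IsTranscendenceBasis ℂ y)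
    (he : ∀ i j, e i (y j) = if i = j then 1 else 0) (hyP : IsTranscendenceBasis ℂ yP)
    (hEP : ∀ i j, EP i (yP j) = if i = j then 1 else 0)
    {ω : (Fin n → Derivation ℂ K K) → K} (hω : IsPluri l ω) (G : Fin n → Derivation ℂ K' K') :
    plForm l (fun j => algebraMap K K' (y j)) (algebraMap K K' (ω e)) G =
      (Matrix.of fun i j => G i (algebraMap K K' (yP j))).det ^ l * algebraMap K K' (ω EP) := by
  choose EP' hEP' using fun i => exists_lift (L := K') hn (EP i)
  have h1 := pluri_coord (hyP.algebraMap_comp (A := K')) (lift_dual hEP hEP')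
    (plForm_pluri l (fun j => algebraMap K K' (y j)) (algebraMap K K' (ω e))) G
  rw [h1]
  have h2 : plForm l (fun j => algebraMap K K' (y j)) (algebraMap K K' (ω e)) EP' =
      algebraMap K K' (ω EP) := by
    rw [pluri_coord hy he hω EP, map_mul, map_pow, RingHom.map_det]
    unfold plForm
    congr 3
    ext i j
    rw [RingHom.mapMatrix_apply, Matrix.map_apply, Matrix.of_apply, Matrix.of_apply, hEP']
  rw [h2]
  rfl

/-- pull-backs of logarithmic forms are logarithmic, and pull-backs of regular forms are regular -/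
theorem pull_at (hn : Algebra.trdeg ℂ K = n) {y : Fin n → K} {e : Fin n → Derivation ℂ K K}
    (hy : IsTranscendenceBasis ℂ y) (he : ∀ i j, e i (y j) = if i = j then 1 else 0)
    {ω : (Fin n → Derivation ℂ K K) → K} (hω : IsPluri l ω) {P : Place ℂ K} {Q : Place ℂ K'}
    {r : ℕ} (h : Over Q P r) (hP : Divisorial n P) :
    (LogAt P ω → LogAt Q (plForm l (fun j => algebraMap K K' (y j)) (algebraMap K K' (ω e)))) ∧
    (RegAt P ω → RegAt Q (plForm l (fun j => algebraMap K K' (y j)) (algebraMap K K' (ω e)))) := by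
  obtain ⟨yP, EP, i0, hl⟩ := exists_loc hn hP
  have hval := fun G => pull_val (K' := K') hn hy he hl.bas hl.dual hω G
  refine ⟨fun hs G hG => ?_, fun hs G hG => ?_⟩
  · rw [hval]
    have h1 : Ge P 0 (ω fun i => lc yP i0 i • EP i) := hs _ hl.log
    have h2 := pull_log h hl hG hω h1
    rw [mul_zero] at h2
    exact h2
  · rw [hval]
    have h1 : Ge P 0 (ω EP) := hs EP hl.pres
    have h2 := pull_reg (m := l) h hl hG h1
    refine h2.mono ?_
    have h3 : (1 : ℤ) ≤ r := by exact_mod_cast h.1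
    nlinarith [(by positivity : (0 : ℤ) ≤ l)]

end

/-- **Traces of the pull-backs of pluricanonical forms.** -/
theorem pltrf {n l : ℕ} {L K K' : Type} [Field L] [Algebra ℂ L] [Algebra.EssFiniteType ℂ L]
    [Field K] [Algebra ℂ K] [Algebra.EssFiniteType ℂ K] [Field K'] [Algebra ℂ K'] [Algebra K K']
    [IsScalarTower ℂ K K'] [FiniteDimensional K K'] [Algebra L K'] [IsScalarTower ℂ L K']
    [FiniteDimensional L K'] (hn : Algebra.trdeg ℂ K = n) (hl1 : 1 ≤ l) {BK : Place ℂ K → Prop}
    {X : Set (Place ℂ L)} (hX : ∀ P ∈ X, Divisorial n P) {Δ : Place ℂ L → ℚ}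
    (hΔ : ∀ P ∈ X, 0 ≤ Δ P)
    (hB : ∀ P ∈ X, ∀ (Q : Place ℂ K') (R : Place ℂ K) (e e' : ℕ), Over Q P e →
      Over Q R e' → BK R → 1 ≤ Δ P)
    (hram : ∀ P ∈ X, ∀ (Q : Place ℂ K') (e : ℕ), Over Q P e →
      1 - 1 / ((min e l : ℕ) : ℚ) ≤ Δ P)
    {ω₀ : (Fin n → Derivation ℂ K K) → K} (hω₀ : IsPluri l ω₀) (hne : ∃ D, ω₀ D ≠ 0) :
    ∃ (u : K') (ω : (Fin n → Derivation ℂ L L) → L), u ≠ 0 ∧
      u ∈ IntermediateField.adjoin L (Set.range (algebraMap K K')) ∧ IsPluri l ω ∧
      (∃ D, ω D ≠ 0) ∧ ∀ b : K, LogSec ℂ K n l BK (fun D => b * ω₀ D) →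
        ∀ P ∈ X, OrdGe P (fun D => Algebra.trace L K' (algebraMap K K' b * u) * ω D)
          (-(l * Δ P)) := by
  have hK' : Algebra.trdeg ℂ K' = n := trdeg_up (K := K) hn
  have hL : Algebra.trdeg ℂ L = n := Pool.Agent.Y184.NT.trdeg_below (K := K') hK'
  have hess : Algebra.EssFiniteType ℂ K' := Algebra.EssFiniteType.comp ℂ L K'
  obtain ⟨z, E0, hz, hE0⟩ := Pool.Agent.Y172.exists_crd (k := ℂ) (K := L) hL
  choose E' hE' using fun i : Fin n =>
    Pool.Agent.Y172.exists_lift (k := ℂ) (K := L) (L := K') hL (E0 i)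
  have hz2 : IsTranscendenceBasis ℂ (fun j => algebraMap L K' (z j)) := hz.algebraMap_comp
  have hE2 := fun i j => Pool.Agent.Y172.lift_dual (L := K') hE0 hE' i j
  obtain ⟨y, e, hy, he⟩ := Pool.Agent.Y172.exists_crd (k := ℂ) (K := K) hn
  have hy2 : IsTranscendenceBasis ℂ (fun j => algebraMap K K' (y j)) := hy.algebraMap_comp
  choose F hF using fun i : Fin n => exists_der _ hy2 fun j => if i = j then 1 else 0
  have hω0 : ω₀ e ≠ 0 := by
    intro h0
    obtain ⟨D, hD⟩ := hne
    apply hD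
    rw [Pool.Agent.Y172.pluri_coord hy he hω₀ D, h0, mul_zero]
  have hdet : (Matrix.of fun i j => E' i (algebraMap K K' (y j))).det ≠ 0 := by
    intro h0
    have h1 := Pool.Agent.Y172.pluri_coord hy2 hF
      (plForm_pluri 1 (fun j => algebraMap L K' (z j)) 1) E'
    rw [h0, pow_one, zero_mul] at h1
    unfold plForm at h1
    have h2 : (Matrix.of fun i j => E' i (algebraMap L K' (z j)) :
        Matrix (Fin n) (Fin n) K') = 1 := by
      ext i j
      rw [Matrix.of_apply, hE2, Matrix.one_apply]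
    rw [h2, Matrix.det_one, one_pow, one_mul] at h1
    exact one_ne_zero h1
  refine ⟨(Matrix.of fun i j => E' i (algebraMap K K' (y j))).det ^ l * algebraMap K K' (ω₀ e),
    plForm l z 1, ?_, ?_, plForm_pluri l z 1, ⟨E0, ?_⟩, ?_⟩
  · refine mul_ne_zero (pow_ne_zero _ hdet) ?_
    rwa [Ne, map_eq_zero]
  · refine mul_mem (pow_mem (Pool.Agent.N619.GP.det_mem _ _ fun i j => ?_) _) ?_
    · rw [Matrix.of_apply]
      exact Pool.Agent.N619.GP.lift_mem hL hz hE0 hE' _ i _
        (IntermediateField.subset_adjoin _ _ ⟨y j, rfl⟩)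
    · exact IntermediateField.subset_adjoin _ _ ⟨ω₀ e, rfl⟩
  · unfold plForm
    have h2 : (Matrix.of fun i j => E0 i (z j) : Matrix (Fin n) (Fin n) L) = 1 := by
      ext i j
      rw [Matrix.of_apply, hE0, Matrix.one_apply]
    rw [h2, Matrix.det_one, one_pow, one_mul]
    exact one_ne_zero
  · intro b hb P hPX
    obtain ⟨W, hW⟩ : ∃ W : (Fin n → Derivation ℂ K' K') → K',
      W = plForm l (fun j => algebraMap K K' (y j)) (algebraMap K K' (b * ω₀ e)) := ⟨_, rfl⟩
    have hWp : IsPluri l W := by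
      rw [hW]
      exact plForm_pluri l _ _
    have hWE : W E' = algebraMap K K' b *
        ((Matrix.of fun i j => E' i (algebraMap K K' (y j))).det ^ l *
          algebraMap K K' (ω₀ e)) := by
      rw [hW]
      unfold plForm
      rw [map_mul]
      ring
    have h1 : (fun D => Algebra.trace L K' (algebraMap K K' b *
        ((Matrix.of fun i j => E' i (algebraMap K K' (y j))).det ^ l *
          algebraMap K K' (ω₀ e))) * plForm l z 1 D) =
          plForm l z (Algebra.trace L K' (W E')) := by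
      funext D
      rw [hWE]
      unfold plForm
      ring
    rw [h1]
    refine plForm_ord hL hz hE0 hE' hl1 W hWp P (hX P hPX) (hΔ P hPX) fun Q r hQ => ?_
    have hQd : Divisorial n Q := divisorial_up hQ (hX P hPX)
    obtain ⟨R, s, hR⟩ := exists_below (k := ℂ) (K := K) Q
    have hRd : Divisorial n R := divisorial_down hR hQd
    have h2 := pull_at hn hy he (ω := fun D => b * ω₀ D) hb.1 hR hRd
    rw [hW]
    refine ⟨h2.1 (hb.2.1 R hRd), fun hδ => ⟨h2.2 (hb.2.2 R hRd fun hBR => ?_), hram P hPX Q r hQ⟩⟩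
    have h3 := hB P hPX Q R r s hQ hR hBR
    linarith

end Pool.Agent.Run7.h260.LP
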