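import Pool.Agent.Run7.h260.LP.Plu
import Pool.Agent.Run7.h260.LP.Abs
import Pool.Agent.R887.Frm

/-!
# Pairs with fractional coefficients which are dominated by varieties with many pluricanonical forms
-/

set_option autoImplicit false
set_option linter.unusedSectionVars false
set_option linter.overlappingInstances false

open FF IntermediateField MvPolynomial
open Pool.Agent.W602.GT Pool.Agent.W603.LV Pool.Agent.Y172

namespace Pool.Agent.Run7.h260.LP

/-- The pair `(X, Δ)` has fractional coefficients of the order `l` over `V`: the coefficient of a prime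
divisor `P` of `X` is at least `1 - 1 / e` or at least `1 - 1 / l`, for all ramification indices `e`
of the places of `K` over `P`; and it is at least one if a place of `K` over `P` is over `BE`. -/
structure Fractional {E K L : Type} [Field E] [Algebra ℂ E] [Field K] [Algebra ℂ K] [Algebra E K]
    [Field L] [Algebra ℂ L] [Algebra L K] {N₀ : ℕ} (y : Fin (N₀ + 1) → L) (l : ℕ)
    (BE : Place ℂ E → Prop) (Δ : Place ℂ L → ℚ) : Prop where
  ram : ∀ P, IsPrimeDivisor y P → ∀ (Q : Place ℂ K) (e : ℕ), Over Q P e →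
    1 - 1 / ((min e l : ℕ) : ℚ) ≤ Δ P
  log : ∀ P, IsPrimeDivisor y P → ∀ (Q : Place ℂ K) (R : Place ℂ E) (e e' : ℕ), Over Q P e →
    Over Q R e' → BE R → 1 ≤ Δ P

section

variable {n g l k : ℕ} {E K L : Type} [Field E] [Algebra ℂ E] [Algebra.EssFiniteType ℂ E]
  [Field K] [Algebra ℂ K] [Algebra E K] [IsScalarTower ℂ E K] [FiniteDimensional E K]
  [Field L] [Algebra ℂ L] [Algebra L K] [IsScalarTower ℂ L K] [FiniteDimensional L K]

/-- **Sections.** -/
theorem frac_main (hn : 1 ≤ n) (hE : Algebra.trdeg ℂ E = n) (hl : 1 ≤ l) {N₀ : ℕ}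
    {y : Fin (N₀ + 1) → L} (hy : NormalModel y) {Δ : Place ℂ L → ℚ} (hΔ : Effective y Δ)
    {BE : Place ℂ E → Prop} (hF : Fractional (K := K) y l BE Δ) {ι : Type} {b : ι → E}
    {ω₀ : (Fin n → Derivation ℂ E E) → E} (hω₀ : IsPluri l ω₀) (hne : ∃ D, ω₀ D ≠ 0)
    (hsec : ∀ i, LogSec ℂ E n l BE (fun D => b i * ω₀ D)) (hs : SepB b g) :
    (k * Module.finrank L K < g → ∃ η : Fin k → ((Fin n → Derivation ℂ L L) → L),
      LinearIndependent ℂ η ∧ ∀ j, IsSection y n l (l • Δ) (η j)) ∧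
    (2 * Module.finrank L K < g → kodairaDim y n Δ = (n : WithBot ℕ) ∧
      ∀ A, Effective y A → Integral y A → numericalDim y n Δ A = (n : EReal)) := by
  haveI := hy.ess
  have hL : Algebra.trdeg ℂ L = n :=
    Pool.Agent.Y184.NT.trdeg_below (K := K) (Pool.Agent.Y172.trdeg_up (K := E) hE)
  obtain ⟨u, ω, hu, hu', hpl, ⟨D₀, hD₀⟩, hη⟩ := pltrf (L := L) (K' := K)
    (X := {P | IsPrimeDivisor y P}) hE hl
    (fun P hP => IsPrimeDivisor.divisorial hy hL hP) (fun P hP => hΔ.1 P hP)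
    (fun P hP Q R e e' => hF.log P hP Q R e e') (fun P hP => hF.ram P hP) hω₀ hne
  have hsec' : ∀ i, IsSection y n l (l • Δ)
      (fun D => Algebra.trace L K (algebraMap E K (b i) * u) * ω D) := by
    intro i
    refine ⟨?_, fun P hP => ?_⟩
    · intro A D
      change _ * ω _ = _
      rw [hpl]
      ring
    · have h1 := hη (b i) (hsec i) P hP
      have h2 : (l • Δ) P = l * Δ P := by simp
      rw [h2]
      exact h1
  refine ⟨fun hr => ?_, fun hr => ?_⟩
  · obtain ⟨j, hj⟩ := abs_k hn hE hL hs hr hu hu'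
    refine ⟨fun t D => Algebra.trace L K (algebraMap E K (b (j t)) * u) * ω D, ?_,
      fun t => hsec' (j t)⟩
    rw [Fintype.linearIndependent_iff] at hj ⊢
    intro c hc t
    refine hj c ?_ t
    have h4 := congrFun hc D₀
    rw [Finset.sum_apply, Pi.zero_apply] at h4
    apply mul_right_cancel₀ hD₀
    rw [zero_mul, Finset.sum_mul, ← h4]
    refine Finset.sum_congr rfl fun j _ => ?_
    rw [Pi.smul_apply, smul_mul_assoc]
  · obtain ⟨i₀, hi₀⟩ := abs_ne hs (by omega) hu hu'
    have halg := abs_alg hE hL hs hr hu hu' hi₀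
    obtain ⟨f, hf, hind⟩ := Pool.Agent.N487.GP.core hL _ halg
    choose s hs' using hf
    obtain ⟨z, D, hz, hD⟩ := Pool.Agent.Y172.exists_crd (k := ℂ) (K := L) hL
    have hfr : IsFrame D := fun G => ⟨fun j => G (z j),
      (Pool.Agent.W73.PG.PULL.expand z hz D hD G).symm⟩
    refine dims hΔ hfr (fun A hA => Pool.Agent.R887.sec_growth hy hL hΔ hA D) hl
      (ω := Fin.cons (fun D => Algebra.trace L K (algebraMap E K (b i₀) * u) * ω D)
        (fun j D => Algebra.trace L K (algebraMap E K (b (s j)) * u) * ω D)) (fun j => ?_)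
      (E := D₀) ?_ ?_
    · refine Fin.cases ?_ (fun j => ?_) j
      · exact hsec' i₀
      · exact hsec' (s j)
    · exact mul_ne_zero hi₀ hD₀
    · have e : (fun i : Fin n => (Fin.cons
          (fun D => Algebra.trace L K (algebraMap E K (b i₀) * u) * ω D)
          (fun j D => Algebra.trace L K (algebraMap E K (b (s j)) * u) * ω D) :
          Fin (n + 1) → (Fin n → Derivation ℂ L L) → L) i.succ D₀ /
            (Fin.cons (fun D => Algebra.trace L K (algebraMap E K (b i₀) * u) * ω D)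
          (fun j D => Algebra.trace L K (algebraMap E K (b (s j)) * u) * ω D) :
          Fin (n + 1) → (Fin n → Derivation ℂ L L) → L) 0 D₀) = f := by
        funext i
        simp only [Fin.cons_succ, Fin.cons_zero]
        rw [← hs' i]
        exact mul_div_mul_right _ _ hD₀
      rw [e]
      exact hind

end

section

variable {M : ℕ} {K : Type} [Field K] [Algebra ℂ K] {x : Fin (M + 2) → K}

/-- powers -/
theorem pow_reg (hx0 : x 0 = 1) (Q : Place ℂ K) {v : K} {m : ℕ}
    (h : ∀ P : MvPolynomial (Fin (M + 2)) ℂ, P.IsHomogeneous m → Q.Reg (aeval x P * v)) (l : ℕ)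
    (P : MvPolynomial (Fin (M + 2)) ℂ) (hP : P.IsHomogeneous (l * m)) :
    Q.Reg (aeval x P * v ^ l) := by
  classical
  have hx0' : x 0 ≠ 0 := by
    rw [hx0]
    exact one_ne_zero
  obtain ⟨j, hj, hmin⟩ := Finset.exists_min_image (Finset.univ.filter fun l => x l ≠ 0)
    (fun l => Q.ord (x l)) ⟨0, by simp [hx0']⟩
  have hj0 : x j ≠ 0 := (Finset.mem_filter.1 hj).2
  obtain ⟨μ, hμ⟩ : ∃ μ : K, μ = x j := ⟨_, rfl⟩
  have hμ0 : μ ≠ 0 := by rw [hμ]; exact hj0
  obtain ⟨y, hy⟩ : ∃ y : Fin (M + 2) → K, y = fun l => μ⁻¹ * x l := ⟨_, rfl⟩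
  have hxy : x = fun l => μ * y l := by
    funext l
    rw [hy, mul_inv_cancel_left₀ hμ0]
  have hreg : ∀ l, Q.Reg (y l) := by
    intro l
    rw [hy]
    change Q.Reg (μ⁻¹ * x l)
    by_cases h0 : x l = 0
    · left
      rw [h0, mul_zero]
    · right
      rw [Q.ord_mul (inv_ne_zero hμ0) h0, Q.ord_inv, hμ]
      have h1 := hmin l (by simp [h0])
      omega
  have h1 := h (X j ^ m) (by
    have h2 := (isHomogeneous_X ℂ j).pow m
    rwa [one_mul] at h2)
  rw [map_pow, aeval_X, ← hμ] at h1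
  have h3 := Pool.Agent.Y988.NT.aeval_smul_form hP μ y
  rw [← hxy] at h3
  have h4 : aeval x P * v ^ l = aeval y P * (μ ^ m * v) ^ l := by
    rw [h3, mul_pow, ← pow_mul, mul_comm m l]
    ring
  rw [h4]
  refine Q.reg_mul (Pool.Agent.Y988.NT.reg_aeval hreg P) ?_
  have h5 : Ge Q 0 (μ ^ m * v) := h1
  have h6 := h5.pow l
  rw [mul_zero] at h6
  exact h6

/-- powers of the forms -/
theorem pow_sec {n m : ℕ} (hx0 : x 0 = 1) {BK : Place ℂ K → Prop}
    {ω₁ : (Fin n → Derivation ℂ K K) → K} (hω₁ : IsPluri 1 ω₁)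
    (hsec : ∀ P : MvPolynomial (Fin (M + 2)) ℂ, P.IsHomogeneous m →
      LogSec ℂ K n 1 BK (fun D => aeval x P * ω₁ D)) (l : ℕ)
    (P : MvPolynomial (Fin (M + 2)) ℂ) (hP : P.IsHomogeneous (l * m)) :
    LogSec ℂ K n l BK (fun D => aeval x P * ω₁ D ^ l) := by
  refine ⟨?_, fun Q hQ D hD => ?_, fun Q hQ hB D hD => ?_⟩
  · intro A D
    change _ * ω₁ _ ^ l = _
    rw [hω₁, pow_one, mul_pow]
    ring
  · exact pow_reg hx0 Q (fun P hP => (hsec P hP).2.1 Q hQ D hD) l P hP
  · exact pow_reg hx0 Q (fun P hP => (hsec P hP).2.2 Q hQ hB D hD) l P hP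

end

end Pool.Agent.Run7.h260.LP
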